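import Pool.Agent.helper95.FJ.SpecD

set_option autoImplicit false

open Finset

namespace Pool.Agent.FJ

open Pool.Agent.FI

theorem CNV_gen {α β : Type} [DecidableEq β] (T : Finset β) (A : Finset α) (f : α → β) (hf : ∀ a ∈ A, f a ∈ T) (g : α → ℂ) :
    ((∑ m ∈ T, ‖∑ a ∈ A with f a = m, g a‖ ^ 2 : ℝ) : ℂ) =
      ∑ a ∈ A, ∑ b ∈ A, if f a = f b then g a * (starRingEnd ℂ) (g b) else 0 := by
  have h1 : ∀ z : ℂ, (((‖z‖ ^ 2 : ℝ)) : ℂ) = z * (starRingEnd ℂ) z := by
    intro z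
    rw [Complex.mul_conj, Complex.normSq_eq_norm_sq]
  rw [Complex.ofReal_sum]
  calc ∑ m ∈ T, ((‖∑ a ∈ A with f a = m, g a‖ ^ 2 : ℝ) : ℂ)
      = ∑ m ∈ T, ∑ a ∈ A, ∑ b ∈ A, if f a = m ∧ f b = m then g a * (starRingEnd ℂ) (g b) else 0 := by
        refine sum_congr rfl fun m _ => ?_
        rw [h1, map_sum, sum_mul_sum, sum_filter]
        refine sum_congr rfl fun a _ => ?_
        by_cases ha : f a = m
        · rw [if_pos ha, sum_filter]
          refine sum_congr rfl fun b _ => ?_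
          by_cases hb : f b = m
          · rw [if_pos hb, if_pos ⟨ha, hb⟩]
          · rw [if_neg hb, if_neg fun h => hb h.2]
        · rw [if_neg ha]
          refine (sum_eq_zero fun b _ => ?_).symm
          rw [if_neg fun h => ha h.1]
    _ = ∑ a ∈ A, ∑ b ∈ A, ∑ m ∈ T, if f a = m ∧ f b = m then g a * (starRingEnd ℂ) (g b) else 0 := by
        rw [sum_comm]
        refine sum_congr rfl fun a _ => ?_
        rw [sum_comm]
    _ = _ := by
        refine sum_congr rfl fun a ha => sum_congr rfl fun b _ => ?_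
        rw [sum_eq_single (f a)]
        · by_cases h : f a = f b
          · rw [if_pos h, if_pos ⟨rfl, h.symm⟩]
          · rw [if_neg h, if_neg fun h2 => h h2.2.symm]
        · intro m _ hm
          rw [if_neg fun h => hm h.1.symm]
        · intro h
          exact absurd (hf a ha) h

theorem CNV : CNV_stmt := by
  intro K I F hI
  have e1 : ∀ m : ℤ, ∑ i ∈ I, ∑ j ∈ (range K).filter fun j : ℕ => (j : ℤ) - i = m, F j * (starRingEnd ℂ) (F i) =
      ∑ a ∈ I ×ˢ range K with (a.2 : ℤ) - a.1 = m, F a.2 * (starRingEnd ℂ) (F a.1) := by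
    intro m
    rw [sum_filter, sum_product]
    refine sum_congr rfl fun i _ => ?_
    rw [sum_filter]
  have e2 : ∀ j : ℕ, ∑ i ∈ I, ∑ i' ∈ (range K).filter fun i' : ℕ => i + i' = j, F i * F i' =
      ∑ a ∈ I ×ˢ range K with a.1 + a.2 = j, F a.1 * F a.2 := by
    intro j
    rw [sum_filter, sum_product]
    refine sum_congr rfl fun i _ => ?_
    rw [sum_filter]
  simp_rw [e1, e2]
  have h1 := CNV_gen (Ioo (-(K : ℤ)) K) (I ×ˢ range K) (fun a : ℕ × ℕ => (a.2 : ℤ) - a.1) (by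
    intro a ha
    have h2 := mem_product.1 ha
    have h3 := mem_range.1 (hI h2.1)
    have h4 := mem_range.1 h2.2
    rw [mem_Ioo]
    constructor <;> omega) (fun a => F a.2 * (starRingEnd ℂ) (F a.1))
  have h2 := CNV_gen (range (2 * K)) (I ×ˢ range K) (fun a : ℕ × ℕ => a.1 + a.2) (by
    intro a ha
    have h2 := mem_product.1 ha
    have h3 := mem_range.1 (hI h2.1)
    have h4 := mem_range.1 h2.2
    rw [mem_range]
    omega) (fun a => F a.1 * F a.2)
  apply Complex.ofReal_injective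
  refine h1.trans (Eq.trans ?_ h2.symm)
  -- exchange the first coordinates
  have key : ∀ X : ℕ → ℕ → ℕ → ℕ → ℂ, ∑ a ∈ I ×ˢ range K, ∑ b ∈ I ×ˢ range K, X a.1 a.2 b.1 b.2 =
      ∑ a ∈ I ×ˢ range K, ∑ b ∈ I ×ˢ range K, X b.1 a.2 a.1 b.2 := by
    intro X
    simp_rw [sum_product]
    calc ∑ i ∈ I, ∑ j ∈ range K, ∑ i' ∈ I, ∑ j' ∈ range K, X i j i' j'
        = ∑ i ∈ I, ∑ i' ∈ I, ∑ j ∈ range K, ∑ j' ∈ range K, X i j i' j' :=
          sum_congr rfl fun i _ => sum_comm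
      _ = ∑ i' ∈ I, ∑ i ∈ I, ∑ j ∈ range K, ∑ j' ∈ range K, X i j i' j' := sum_comm
      _ = ∑ i' ∈ I, ∑ j ∈ range K, ∑ i ∈ I, ∑ j' ∈ range K, X i j i' j' :=
          sum_congr rfl fun i _ => sum_comm
  rw [key fun i j i' j' => if (j : ℤ) - i = (j' : ℤ) - i' then
    F j * (starRingEnd ℂ) (F i) * (starRingEnd ℂ) (F j' * (starRingEnd ℂ) (F i')) else 0]
  refine sum_congr rfl fun a _ => sum_congr rfl fun b _ => ?_
  by_cases h : a.1 + a.2 = b.1 + b.2
  · have h3 : (a.2 : ℤ) - b.1 = (b.2 : ℤ) - a.1 := by omega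
    rw [if_pos h, if_pos h3, map_mul, map_mul, Complex.conj_conj]
    ring
  · have h3 : ¬ (a.2 : ℤ) - b.1 = (b.2 : ℤ) - a.1 := by omega
    rw [if_neg h, if_neg h3]

end Pool.Agent.FJ
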