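import Pool.Agent.helper95.FJ.SpecD

set_option autoImplicit false

open Finset

namespace Pool.Agent.FJ

open Pool.Agent.FI

open scoped Classical in
/-- The weight of the modulus `D`. -/
noncomputable def GPS_T (x K R₁ : ℕ) (lam : ℤ → ℝ) (D : ℕ) : ℝ :=
  1 / (Nat.totient D : ℝ) * ∑ χ : DirichletCharacter ℂ D with χ.conductor ≤ R₁, ∑ i ∈ range K, ‖Fc x K lam χ i‖ ^ 2

theorem GPS_T0 (x K R₁ : ℕ) (lam : ℤ → ℝ) (D : ℕ) : 0 ≤ GPS_T x K R₁ lam D := by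
  unfold GPS_T
  positivity

theorem GPS_one (hGSB : GSB_stmt) (x K₃ K₄ R₁ : ℕ) (lam : ℤ → ℝ) (m : ℤ) (D : ℕ) (ω : ℤ) :
    ∑ b ∈ range K₃, EgS x K₃ K₄ R₁ lam b m D ω ≤ GPS_T x (K₃ * K₄) R₁ lam D := by
  classical
  have h1 : ∀ b, EgS x K₃ K₄ R₁ lam b m D ω ≤
      1 / (Nat.totient D : ℝ) * ∑ χ : DirichletCharacter ℂ D with χ.conductor ≤ R₁, ‖Gc x K₃ K₄ lam b m χ‖ := by
    intro b
    unfold EgS
    rw [norm_mul]
    have h2 : ‖(1 : ℂ) / (Nat.totient D : ℂ)‖ = 1 / (Nat.totient D : ℝ) := by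
      rw [norm_div, norm_one, Complex.norm_natCast]
    rw [h2]
    refine mul_le_mul_of_nonneg_left ?_ (by positivity)
    refine (norm_sum_le _ _).trans (sum_le_sum fun χ _ => ?_)
    rw [norm_mul, RCLike.norm_conj]
    have h3 : ‖χ (ω : ZMod D)‖ ≤ 1 := DirichletCharacter.norm_le_one χ _
    exact mul_le_of_le_one_left (norm_nonneg _) h3
  refine (sum_le_sum fun b _ => h1 b).trans ?_
  rw [← mul_sum, sum_comm]
  unfold GPS_T
  refine mul_le_mul_of_nonneg_left (sum_le_sum fun χ _ => ?_) (by positivity)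
  exact hGSB x K₃ K₄ lam m D χ

theorem GPS (hPAD : PAD_stmt) (hCMZ : CMZ_stmt) (hGSB : GSB_stmt) : GPS_stmt := by
  classical
  obtain ⟨C₁, hC₁, hPAD⟩ := hPAD
  obtain ⟨C₂, hC₂, hCMZ⟩ := hCMZ
  refine ⟨C₂ * (2 * C₁), by positivity, ?_⟩
  intro om x N A K₁ K₃ K₄ R₁ hx hN hK₃ hK₄ lam
  set K := K₃ * K₄ with hK
  have hK1 : 1 ≤ K := Nat.mul_pos hK₃ hK₄
  set T := GPS_T x K R₁ lam with hT
  have hT0 : ∀ D, 0 ≤ T D := fun D => GPS_T0 x K R₁ lam D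
  set Y : ℝ := 1 + (A : ℝ) ^ 2 * K / x ^ 2 with hY
  have hY0 : 0 ≤ Y := by positivity
  -- one pair
  have h1 : ∀ p ∈ Pr x N A K₁, ∑ b ∈ range K₃, ∑ m ∈ Mz x K A p.1 p.2, ∑ e ∈ ({1, 2} : Finset ℕ),
      EgS x K₃ K₄ R₁ lam b m (e * (dl p.1 p.2).natAbs) (om e p.1 p.2) ≤
      C₂ * Y * ∑ e ∈ ({1, 2} : Finset ℕ), T (e * (dl p.1 p.2).natAbs) := by
    intro p hp
    rw [sum_comm]
    have h2 : ∀ m ∈ Mz x K A p.1 p.2, ∑ b ∈ range K₃, ∑ e ∈ ({1, 2} : Finset ℕ),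
        EgS x K₃ K₄ R₁ lam b m (e * (dl p.1 p.2).natAbs) (om e p.1 p.2) ≤
        ∑ e ∈ ({1, 2} : Finset ℕ), T (e * (dl p.1 p.2).natAbs) := by
      intro m _
      rw [sum_comm]
      exact sum_le_sum fun e _ => GPS_one hGSB x K₃ K₄ R₁ lam m _ _
    refine (sum_le_card_nsmul _ _ _ h2).trans ?_
    rw [nsmul_eq_mul]
    refine mul_le_mul_of_nonneg_right ?_ (sum_nonneg fun e _ => hT0 _)
    exact hCMZ x N A K₁ K hx hN hK1 p hp
  refine (sum_le_sum h1).trans ?_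
  rw [← mul_sum, sum_comm]
  -- one value of `e`
  have h3 : ∀ e ∈ ({1, 2} : Finset ℕ), ∑ p ∈ Pr x N A K₁, T (e * (dl p.1 p.2).natAbs) ≤
      C₁ * N * ∑ D ∈ Icc 1 (2 * N * A / x), T D := by
    intro e he
    have he2 : 1 ≤ e ∧ e ≤ 2 := by
      rw [mem_insert, mem_singleton] at he
      omega
    have h4 : ∀ p ∈ Pr x N A K₁, e * (dl p.1 p.2).natAbs ∈ Icc 1 (2 * N * A / x) := by
      intro p hp
      obtain ⟨-, h5, h6⟩ := mem_filter.1 hp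
      have h7 : 1 ≤ (dl p.1 p.2).natAbs := by
        by_contra h8
        have h9 : (dl p.1 p.2).natAbs = 0 := by omega
        rw [h9] at h5
        simp at h5
      rw [mem_Icc]
      refine ⟨Nat.mul_pos he2.1 h7, ?_⟩
      rw [Nat.le_div_iff_mul_le (by omega)]
      calc e * (dl p.1 p.2).natAbs * x = e * (x * (dl p.1 p.2).natAbs) := by ring
        _ ≤ 2 * (N * A) := Nat.mul_le_mul he2.2 h6
        _ = 2 * N * A := by ring
    rw [← sum_fiberwise_of_maps_to h4, mul_sum]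
    refine sum_le_sum fun D hD => ?_
    have h5 : ∀ p ∈ (Pr x N A K₁).filter (fun p => e * (dl p.1 p.2).natAbs = D),
        T (e * (dl p.1 p.2).natAbs) = T D := by
      intro p hp
      rw [(mem_filter.1 hp).2]
    rw [sum_congr rfl h5, sum_const, nsmul_eq_mul]
    refine mul_le_mul_of_nonneg_right ?_ (hT0 D)
    refine le_trans ?_ (hPAD N (D / e) hN)
    have h6 : (Pr x N A K₁).filter (fun p => e * (dl p.1 p.2).natAbs = D) ⊆
        (ZD N ×ˢ ZD N).filter (fun p => (dl p.1 p.2).natAbs = D / e) := by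
      intro p hp
      obtain ⟨h7, h8⟩ := mem_filter.1 hp
      refine mem_filter.2 ⟨(mem_filter.1 h7).1, ?_⟩
      rw [← h8, Nat.mul_div_cancel_left _ (by omega)]
    exact_mod_cast card_le_card h6
  have h4 : ∑ e ∈ ({1, 2} : Finset ℕ), ∑ p ∈ Pr x N A K₁, T (e * (dl p.1 p.2).natAbs) ≤
      2 * (C₁ * N * ∑ D ∈ Icc 1 (2 * N * A / x), T D) := by
    refine (sum_le_card_nsmul _ _ _ h3).trans ?_
    rw [nsmul_eq_mul]
    have h5 : #({1, 2} : Finset ℕ) = 2 := by decide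
    rw [h5]
    norm_num
  have h5 : 0 ≤ C₂ * Y := by positivity
  refine (mul_le_mul_of_nonneg_left h4 h5).trans (le_of_eq ?_)
  have e1 : Y = 1 + (A : ℝ) ^ 2 * (K₃ * K₄) / x ^ 2 := by
    rw [hY, hK, Nat.cast_mul]
  rw [e1, hT]
  unfold GPS_T
  ring

end Pool.Agent.FJ
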