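import Pool.Agent.helper95.FJ.SpecD

set_option autoImplicit false

open Finset

namespace Pool.Agent.FJ

open Pool.Agent.FI

theorem GSB_blocks (K₃ K₄ : ℕ) (f : ℕ → ℝ) :
    ∑ b ∈ range K₃, ∑ i ∈ Ico (b * K₄) ((b + 1) * K₄), f i = ∑ i ∈ range (K₃ * K₄), f i := by
  induction K₃ with
  | zero => simp
  | succ n ih =>
    rw [sum_range_succ, ih, range_eq_Ico, range_eq_Ico]
    exact sum_Ico_consecutive f (Nat.zero_le _) (Nat.mul_le_mul_right K₄ (Nat.le_succ n))

theorem GSB : GSB_stmt := by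
  intro x K₃ K₄ lam m D χ
  set K := K₃ * K₄ with hK
  set u : ℕ → ℝ := fun i => ‖Fc x K lam χ i‖ with hu
  have h1 : ∀ b, ‖Gc x K₃ K₄ lam b m χ‖ ≤ ∑ i ∈ Ico (b * K₄) ((b + 1) * K₄),
      ∑ j ∈ (range K).filter fun j : ℕ => (j : ℤ) - i = m, u j * u i := by
    intro b
    unfold Gc
    refine (norm_sum_le _ _).trans (sum_le_sum fun i _ => ?_)
    refine (norm_sum_le _ _).trans (sum_le_sum fun j _ => ?_)
    rw [norm_mul, RCLike.norm_conj]
  refine (sum_le_sum fun b _ => h1 b).trans ?_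
  rw [GSB_blocks K₃ K₄ fun i => ∑ j ∈ (range K).filter fun j : ℕ => (j : ℤ) - i = m, u j * u i]
  have h2 : ∀ i : ℕ, ∑ j ∈ (range K).filter fun j : ℕ => (j : ℤ) - i = m, u j * u i ≤
      (∑ j ∈ range K, if (j : ℤ) - i = m then u j ^ 2 / 2 else 0) + u i ^ 2 / 2 := by
    intro i
    have h3 : ∑ j ∈ (range K).filter fun j : ℕ => (j : ℤ) - i = m, u j * u i ≤
        ∑ j ∈ (range K).filter fun j : ℕ => (j : ℤ) - i = m, (u j ^ 2 / 2 + u i ^ 2 / 2) :=
      sum_le_sum fun j _ => by nlinarith [sq_nonneg (u j - u i)]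
    refine h3.trans ?_
    rw [sum_add_distrib, sum_filter]
    refine add_le_add (le_refl _) ?_
    rw [sum_const, nsmul_eq_mul]
    have h4 : #((range K).filter fun j : ℕ => (j : ℤ) - i = m) ≤ 1 := by
      rw [card_le_one]
      intro a ha b hb
      have h5 := (mem_filter.1 ha).2
      have h6 := (mem_filter.1 hb).2
      omega
    have h5 : (#((range K).filter fun j : ℕ => (j : ℤ) - i = m) : ℝ) ≤ 1 := by exact_mod_cast h4
    have h6 : 0 ≤ u i ^ 2 / 2 := by positivity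
    nlinarith
  refine (sum_le_sum fun i _ => h2 i).trans ?_
  rw [sum_add_distrib, sum_comm]
  have h7 : ∀ j ∈ range K, ∑ i ∈ range K, (if (j : ℤ) - i = m then u j ^ 2 / 2 else 0) ≤ u j ^ 2 / 2 := by
    intro j _
    rw [← sum_filter, sum_const, nsmul_eq_mul]
    have h4 : #((range K).filter fun i : ℕ => (j : ℤ) - i = m) ≤ 1 := by
      rw [card_le_one]
      intro a ha b hb
      have h5 := (mem_filter.1 ha).2
      have h6 := (mem_filter.1 hb).2
      omega
    have h5 : (#((range K).filter fun i : ℕ => (j : ℤ) - i = m) : ℝ) ≤ 1 := by exact_mod_cast h4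
    have h6 : 0 ≤ u j ^ 2 / 2 := by positivity
    nlinarith
  refine (add_le_add (sum_le_sum h7) (le_refl _)).trans ?_
  rw [← sum_add_distrib]
  refine le_of_eq (sum_congr rfl fun i _ => ?_)
  rw [hu]
  ring

end Pool.Agent.FJ
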