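import Pool.Agent.helper95.FJ.SpecD
import Pool.Agent.helper20.GD.BV1

set_option autoImplicit false

open Finset

namespace Pool.Agent.FJ

open Pool.Agent.FI

theorem PHK : PHK_stmt :=
  ⟨Real.exp 30, Real.exp_pos _, fun D₁ hD => GD.BV1_sum_inv D₁ hD⟩

end Pool.Agent.FJ
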